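import Pool.Agent.Helper86.SG.Defs

/-! Board SG, package LIFT. -/

open Finset

namespace Pool.Agent.Helper13.SG

theorem exists_common {α : Type*} [DecidableEq α] (Z : Finset α) (g : α → α) (h3 : 4 ≤ #Z)
    (hg : ∀ y ∈ Z, g y ∈ Z ∧ g y ≠ y)
    (hp : ∀ y ∈ Z, ∀ y' ∈ Z, y ≠ y' → g y = y' ∨ g y' = y ∨ g y = g y') :
    ∃ v ∈ Z, ∀ y ∈ Z, y ≠ v → g y = v := by
  by_cases hinj : ∀ a ∈ Z, ∀ b ∈ Z, a ≠ b → g a ≠ g b
  · exfalso
    obtain ⟨y, hy⟩ : Z.Nonempty := card_pos.mp (by omega)
    have hsub : Z.erase y ⊆ insert (g y) ((Z.erase y).filter (fun a => g a = y)) := by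
      intro a ha
      rw [mem_insert, mem_filter]
      have ha' := mem_erase.mp ha
      rcases hp y hy a ha'.2 (Ne.symm ha'.1) with h | h | h
      · left; exact h.symm
      · right; exact ⟨ha, h⟩
      · exact absurd h (hinj y hy a ha'.2 (Ne.symm ha'.1))
    have hone : #((Z.erase y).filter (fun a => g a = y)) ≤ 1 := by
      rw [card_le_one]
      intro a ha b hb
      rw [mem_filter, mem_erase] at ha hb
      by_contra hab
      exact hinj a ha.1.2 b hb.1.2 hab (ha.2.trans hb.2.symm)
    have h1 := card_le_card hsub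
    have h2 := card_insert_le (g y) ((Z.erase y).filter (fun a => g a = y))
    rw [card_erase_of_mem hy] at h1
    omega
  · push Not at hinj
    obtain ⟨a, ha, b, hb, hab, hgab⟩ := hinj
    refine ⟨g a, (hg a ha).1, ?_⟩
    intro y hy hyv
    by_cases hya : y = a
    · rw [hya]
    by_cases hyb : y = b
    · rw [hyb, hgab]
    rcases hp y hy a ha hya with h | h | h
    · rcases hp y hy b hb hyb with h' | h' | h'
      · exact absurd (h.symm.trans h') hab
      · exact absurd (h'.symm.trans hgab.symm) hyv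
      · rw [h', hgab]
    · exact absurd h.symm hyv
    · exact h

theorem lift_aux (n : ℕ) (Y : Finset (Fin n)) : ∀ (m k : ℕ), 3 ≤ k → #Y = k + m →
    ∀ (f : Finset (Fin n) → Fin n),
    (∀ S, S ⊆ Y → #S = k → f S ∈ S) →
    (∀ S S', S ⊆ Y → S' ⊆ Y → #S = k → #S' = k → #(S ∩ S') + 1 = k → f S ∈ S' → f S' ∈ S →
      f S = f S') →
    ∃ v ∈ Y, ∀ S, S ⊆ Y → #S = k → v ∈ S → f S = v := by
  intro m
  induction m with
  | zero =>
    intro k _ hY f hf _
    refine ⟨f Y, hf Y (Subset.refl Y) (by omega), ?_⟩
    intro S hS hSk _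
    rw [eq_of_subset_of_card_le hS (by omega)]
  | succ m ih =>
    intro k hk hY f hf hc
    have key : ∀ Z : Finset (Fin n), Z ⊆ Y → #Z = k + 1 →
        ∃ v ∈ Z, ∀ y ∈ Z, y ≠ v → f (Z.erase y) = v := by
      intro Z hZ hZk
      have hsub : ∀ y, Z.erase y ⊆ Y := fun y => (erase_subset y Z).trans hZ
      have hcard : ∀ y ∈ Z, #(Z.erase y) = k := by
        intro y hy
        rw [card_erase_of_mem hy]; omega
      refine exists_common Z (fun y => f (Z.erase y)) (by omega) ?_ ?_
      · intro y hy
        have h := hf (Z.erase y) (hsub y) (hcard y hy)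
        exact ⟨mem_of_mem_erase h, ne_of_mem_erase h⟩
      · intro y hy y' hy' hne
        by_cases h1 : f (Z.erase y) = y'
        · exact Or.inl h1
        by_cases h2 : f (Z.erase y') = y
        · exact Or.inr (Or.inl h2)
        right; right
        have m1 := hf (Z.erase y) (hsub y) (hcard y hy)
        have m2 := hf (Z.erase y') (hsub y') (hcard y' hy')
        refine hc _ _ (hsub y) (hsub y') (hcard y hy) (hcard y' hy') ?_ ?_ ?_
        · have e : Z.erase y ∩ Z.erase y' = (Z.erase y).erase y' := by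
            ext x
            simp only [mem_inter, mem_erase]
            tauto
          rw [e, card_erase_of_mem (mem_erase.mpr ⟨Ne.symm hne, hy'⟩), hcard y hy]
          omega
        · exact mem_erase.mpr ⟨h1, mem_of_mem_erase m1⟩
        · exact mem_erase.mpr ⟨h2, mem_of_mem_erase m2⟩
    classical
    let f' : Finset (Fin n) → Fin n := fun Z =>
      if h : Z ⊆ Y ∧ #Z = k + 1 then (key Z h.1 h.2).choose else f Z
    have hf' : ∀ Z, Z ⊆ Y → #Z = k + 1 →
        f' Z ∈ Z ∧ ∀ y ∈ Z, y ≠ f' Z → f (Z.erase y) = f' Z := by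
      intro Z hZ hZk
      have e : f' Z = (key Z hZ hZk).choose := by
        simp only [f']
        rw [dif_pos ⟨hZ, hZk⟩]
      rw [e]
      exact (key Z hZ hZk).choose_spec
    obtain ⟨v, hvY, hv⟩ := ih (k + 1) (by omega) (by omega) f'
      (fun Z hZ hZk => (hf' Z hZ hZk).1) (by
        intro Z Z' hZ hZ' hZk hZk' hint h1 h2
        have aux : ∀ Z Z' : Finset (Fin n), Z ⊆ Y → #Z = k + 1 → #(Z ∩ Z') + 1 = k + 1 →
            f' Z ∈ Z' → f (Z ∩ Z') = f' Z := by
          intro Z Z' hZ hZk hint h1
          have hd : #(Z \ Z') = 1 := by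
            have := card_sdiff_add_card_inter Z Z'
            omega
          obtain ⟨y, hy⟩ := card_eq_one.mp hd
          have hyZ : y ∈ Z \ Z' := by rw [hy]; exact mem_singleton_self y
          rw [mem_sdiff] at hyZ
          have e : Z ∩ Z' = Z.erase y := by
            ext x
            rw [mem_inter, mem_erase]
            constructor
            · rintro ⟨hx, hx'⟩
              exact ⟨fun h => hyZ.2 (h ▸ hx'), hx⟩
            · rintro ⟨hxy, hx⟩
              refine ⟨hx, ?_⟩
              by_contra hx'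
              have : x ∈ Z \ Z' := mem_sdiff.mpr ⟨hx, hx'⟩
              rw [hy, mem_singleton] at this
              exact hxy this
          rw [e]
          exact (hf' Z hZ hZk).2 y hyZ.1 (fun h => hyZ.2 (h ▸ h1))
        have a1 := aux Z Z' hZ hZk hint h1
        have a2 := aux Z' Z hZ' hZk' (by rw [inter_comm]; exact hint) h2
        rw [inter_comm] at a2
        exact a1.symm.trans a2)
    refine ⟨v, hvY, ?_⟩
    intro S hS hSk hvS
    obtain ⟨y, hyY, hyS⟩ : ∃ y ∈ Y, y ∉ S := by
      by_contra hcon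
      push Not at hcon
      have := card_le_card (show Y ⊆ S from hcon)
      omega
    have hZ : insert y S ⊆ Y := insert_subset hyY hS
    have hZk : #(insert y S) = k + 1 := by rw [card_insert_of_notMem hyS, hSk]
    have hvZ := hv (insert y S) hZ hZk (mem_insert_of_mem hvS)
    have hne : y ≠ f' (insert y S) := by
      rw [hvZ]; rintro rfl; exact hyS hvS
    have := (hf' (insert y S) hZ hZk).2 y (mem_insert_self y S) hne
    rw [erase_insert hyS, hvZ] at this
    exact this

theorem lift : _root_.SG.LIFTStm := by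
  intro n k hk Y f hY hf hc
  exact lift_aux n Y (#Y - k) k hk (by omega) f hf hc

end Pool.Agent.Helper13.SG
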