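import Pool.Agent.Helper86.SG.Defs

/-! Board SG, package SUM (from SRC). -/

open Finset

namespace Pool.Agent.Helper13.SG

open _root_.SG
open SJ (supp IsV dot fib)

theorem card_fib_le {n k : ℕ} (F : Finset (Fin n → ℤ)) (hF : ∀ v ∈ F, IsV n k v)
    (S : Finset (Fin n)) (hS : #S = k) : #(fib F S) ≤ 2 ^ k := by
  classical
  rw [← hS, ← card_powerset]
  refine card_le_card_of_injOn (fun v => S.filter (fun i => v i = 1)) ?_ ?_
  · intro v _
    rw [mem_coe, mem_powerset]
    exact filter_subset _ _
  · intro u hu v hv huv
    rw [mem_coe, fib, mem_filter] at hu hv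
    have hu' := hF u hu.1
    have hv' := hF v hv.1
    funext i
    by_cases hi : i ∈ S
    · have h0u : u i ≠ 0 := by
        have : i ∈ supp u := hu.2 ▸ hi
        simpa [supp] using this
      have h0v : v i ≠ 0 := by
        have : i ∈ supp v := hv.2 ▸ hi
        simpa [supp] using this
      have e : u i = 1 ↔ v i = 1 := by
        have h1 : i ∈ S.filter (fun i => u i = 1) ↔ i ∈ S.filter (fun i => v i = 1) := by
          simp only at huv
          rw [huv]
        simpa [hi] using h1
      rcases hu'.1 i with h | h | h
      · rcases hv'.1 i with h' | h' | h'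
        · rw [h, h']
        · exact absurd h' h0v
        · rw [e.mpr h', h']
      · exact absurd h h0u
      · rw [h, e.mp h]
    · have h0u : u i = 0 := by
        have : i ∉ supp u := hu.2 ▸ hi
        simpa [supp] using this
      have h0v : v i = 0 := by
        have : i ∉ supp v := hv.2 ▸ hi
        simpa [supp] using this
      rw [h0u, h0v]

theorem sum (hSRC : SRCStm) : SUMStm := by
  intro n k d F hk hF
  classical
  have h1 : #F = ∑ S ∈ powersetCard k (univ : Finset (Fin n)), #(fib F S) := by
    rw [card_eq_sum_card_fiberwise (f := supp) (t := powersetCard k (univ : Finset (Fin n)))]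
    · refine sum_congr rfl fun S _ => ?_
      rw [fib]
    · intro v hv
      rw [mem_coe, mem_powersetCard]
      exact ⟨subset_univ _, (hF v hv).2⟩
  have h2 : #(LL k d F) = ∑ S ∈ powersetCard k (univ : Finset (Fin n)),
      if S ∈ LL k d F then 1 else 0 := by
    rw [← card_filter]
    congr 1
    ext S
    simp [LL]
  have h3 : 2 ^ k * #(HH k d F) = ∑ S ∈ powersetCard k (univ : Finset (Fin n)),
      if S ∈ HH k d F then 2 ^ k else 0 := by
    rw [← sum_filter, sum_const, smul_eq_mul, mul_comm]
    congr 2
    ext S
    simp only [HH, mem_filter]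
    tauto
  have h4 : 2 * BB (k - 1) d * n.choose k = ∑ _S ∈ powersetCard k (univ : Finset (Fin n)),
      2 * BB (k - 1) d := by
    rw [sum_const, card_powersetCard, card_univ, Fintype.card_fin, smul_eq_mul, mul_comm]
  rw [h1, h2, h3, h4, ← sum_add_distrib, ← sum_add_distrib]
  refine sum_le_sum fun S hS => ?_
  rw [mem_powersetCard] at hS
  by_cases hL : S ∈ LL k d F
  · rw [if_pos hL]
    have : #(fib F S) < 2 * BB (k - 1) d := by
      rw [LL, mem_filter] at hL
      exact hL.2
    exact Nat.le_add_right_of_le this
  · rw [if_neg hL]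
    by_cases hH : S ∈ HH k d F
    · rw [if_pos hH]
      have := card_fib_le F hF S hS.2
      omega
    · rw [if_neg hH]
      have := (hSRC n k d F hk hF S hS.2).1 hH
      omega

end Pool.Agent.Helper13.SG
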