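import Pool.Agent.Helper13.SG.LIFT

/-! Board SG, package TOP. -/

open Finset

namespace Pool.Agent.Helper13.SG

theorem exists_mid {n : ℕ} (A W : Finset (Fin n)) (k : ℕ) (hAW : A ⊆ W) (hA : #A ≤ k)
    (hW : k ≤ #W) : ∃ S, A ⊆ S ∧ S ⊆ W ∧ #S = k := by
  obtain ⟨S, h1, h2, h3⟩ := exists_subsuperset_card_eq hAW hA hW
  exact ⟨S, h1, h2, h3⟩

theorem top : _root_.SG.TOPStm := by
  intro n k hk V f hV hf hc
  -- `k`-subsets of `V ∪ S` meet `V` if `S` meets `V`
  have meet : ∀ S : Finset (Fin n), #S = k → ¬ Disjoint S V → ∀ S', S' ⊆ V ∪ S → #S' = k →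
      ¬ Disjoint S' V := by
    intro S hS hSV S' hS' hS'k hdis
    have h1 : S' ⊆ S := by
      intro x hx
      rcases mem_union.mp (hS' hx) with h | h
      · exact absurd h (disjoint_left.mp hdis hx)
      · exact h
    have h2 : S' = S := eq_of_subset_of_card_le h1 (by omega)
    exact hSV (h2 ▸ hdis)
  have meetV : ∀ S', S' ⊆ V → #S' = k → ¬ Disjoint S' V := by
    intro S' hS' hS'k hdis
    have : S' = ∅ := by
      rw [eq_empty_iff_forall_notMem]
      intro x hx
      exact disjoint_left.mp hdis hx (hS' hx)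
    rw [this, card_empty] at hS'k
    omega
  obtain ⟨v₁, hv₁, hv⟩ := lift n k hk V f hV (fun S hS hSk => hf S hSk (meetV S hS hSk))
    (fun S S' hS hS' hSk hS'k => hc S S' hSk hS'k (meetV S hS hSk) (meetV S' hS' hS'k))
  classical
  have big : ∀ S : Finset (Fin n), #S = k → ¬ Disjoint S V →
      ∃ v ∈ V ∪ S, ∀ S', S' ⊆ V ∪ S → #S' = k → v ∈ S' → f S' = v := by
    intro S hSk hSV
    refine lift n k hk (V ∪ S) f (hV.trans (card_le_card subset_union_left))
      (fun S' hS' hS'k => hf S' hS'k (meet S hSk hSV S' hS' hS'k))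
      (fun S' S'' hS' hS'' hSk' hSk'' => hc S' S'' hSk' hSk'' (meet S hSk hSV S' hS' hSk')
        (meet S hSk hSV S'' hS'' hSk''))
  let T : Finset (Fin n) := univ.filter (fun x => x ∉ V ∧
    ∀ S', S' ⊆ insert x V → #S' = k → x ∈ S' → f S' = x)
  have hT : ∀ x, x ∈ T ↔ x ∉ V ∧ ∀ S', S' ⊆ insert x V → #S' = k → x ∈ S' → f S' = x := by
    intro x; simp [T]
  have dich : ∀ S : Finset (Fin n), #S = k → ¬ Disjoint S V →
      (Disjoint S T ∧ (v₁ ∈ S → f S = v₁)) ∨ (∃ t ∈ T, t ∈ S ∧ f S = t) := by
    intro S hSk hSV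
    obtain ⟨v, hvm, hvv⟩ := big S hSk hSV
    by_cases hvV : v ∈ V
    · left
      have e : v = v₁ := by
        obtain ⟨S', h1, h2, h3⟩ := exists_mid {v, v₁} V k
          (insert_subset hvV (singleton_subset_iff.mpr hv₁))
          ((card_le_two).trans (by omega)) hV
        have a1 := hvv S' (h2.trans subset_union_left) h3 (h1 (mem_insert_self _ _))
        have a2 := hv S' h2 h3 (h1 (mem_insert_of_mem (mem_singleton_self _)))
        exact a1.symm.trans a2
      refine ⟨?_, fun h => ?_⟩
      · rw [disjoint_left]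
        intro t htS htT
        rw [hT] at htT
        obtain ⟨S', h1, h2, h3⟩ := exists_mid {t, v} (insert t V) k
          (insert_subset (mem_insert_self _ _)
            (singleton_subset_iff.mpr (mem_insert_of_mem hvV)))
          ((card_le_two).trans (by omega)) (hV.trans (card_le_card (subset_insert _ _)))
        have a1 := htT.2 S' h2 h3 (h1 (mem_insert_self _ _))
        have a2 := hvv S' (h2.trans (insert_subset (mem_union_right _ htS) subset_union_left)) h3
          (h1 (mem_insert_of_mem (mem_singleton_self _)))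
        exact htT.1 (by rw [a1.symm.trans a2]; exact hvV)
      · rw [e] at hvv
        exact hvv S subset_union_right hSk h
    · right
      have hvS : v ∈ S := (mem_union.mp hvm).resolve_left hvV
      refine ⟨v, ?_, hvS, hvv S subset_union_right hSk hvS⟩
      rw [hT]
      refine ⟨hvV, fun S' h1 h2 h3 => hvv S' (h1.trans ?_) h2 h3⟩
      exact insert_subset (mem_union_right _ hvS) subset_union_left
  refine ⟨T, v₁, hv₁, ?_, ?_, ?_⟩
  · rw [disjoint_left]
    intro x hx
    exact ((hT x).mp hx).1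
  · intro S hSk hSV hST
    rcases dich S hSk hSV with h | ⟨t, ht, _, h⟩
    · exact absurd h.1 hST
    · rw [h]; exact ht
  · intro S hSk hST hvS
    have hSV : ¬ Disjoint S V := fun h => disjoint_left.mp h hvS hv₁
    rcases dich S hSk hSV with h | ⟨t, ht, htS, _⟩
    · exact h.2 hvS
    · exact absurd ht (disjoint_left.mp hST htS)

end Pool.Agent.Helper13.SG
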